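import Mathlib
import Pool.Agent.Y114.RM.Stm4
import Pool.Agent.Y220.RM.ADW

/-!
# Project RM (helper114): the determinant of Ad Frobenius is in the group of ratios
-/

set_option autoImplicit false

namespace Pool.Agent.Y220.RM

open Module Polynomial Matrix Pool.Agent.Y114.RM

section abs

variable {K : Type} [Field K] [Algebra ℚ K] (j : K →+* ℂ) {ι : Type} [Fintype ι]
  {n : ι → ℕ} {E : Type} [AddCommGroup E] [Module K E] [FiniteDimensional K E]

theorem abs_ratio (G0 : ∀ i, Matrix (Fin (n i)) (Fin (n i)) K) (hG0 : ∀ i, (G0 i).det ≠ 0)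
    (P : ι → ℚ[X]) (hP : ∀ i, (G0 i).charpoly = (P i).map (algebraMap ℚ K))
    (L : Submodule K E) (T : End K L)
    (β : ∀ i, L →ₗ[K] Matrix (Fin (n i)) (Fin (n i)) K)
    (hβ : ∀ X i, G0 i * β i X = β i (T X) * G0 i)
    (hinj : ∀ X, (∀ i, β i X = 0) → X = 0) :
    ∃ R : Multiset ℂ, j (LinearMap.det T) = R.prod ∧ ∀ lam ∈ R, lam ≠ 0 ∧
      ∃ i, ∃ b ∈ (P i).aroots ℂ, b ≠ 0 ∧ lam * b ∈ (P i).aroots ℂ := by
  classical
  -- injectivity
  have hTinj : Function.Injective T := by
    rw [← LinearMap.ker_eq_bot, LinearMap.ker_eq_bot']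
    intro X hX
    refine hinj X fun i => ?_
    have h1 := hβ X i
    rw [hX, map_zero, Matrix.zero_mul] at h1
    have h2 : IsUnit (G0 i) := by
      rw [Matrix.isUnit_iff_isUnit_det, isUnit_iff_ne_zero]
      exact hG0 i
    exact (h2.mul_right_eq_zero).1 h1
  have hdet0 : LinearMap.det T ≠ 0 := by
    intro h0
    have h1 := (LinearMap.bot_lt_ker_of_det_eq_zero h0)
    rw [LinearMap.ker_eq_bot.2 hTinj] at h1
    exact lt_irrefl _ h1
  -- the complex matrices
  let G : ∀ i, Matrix (Fin (n i)) (Fin (n i)) ℂ := fun i => (G0 i).map j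
  have hGchar : ∀ i, (G i).charpoly = (P i).map (algebraMap ℚ ℂ) := by
    intro i
    have h1 : (G i).charpoly = ((G0 i).charpoly).map j := Matrix.charpoly_map _ _
    rw [h1, hP, Polynomial.map_map]
    congr 1
    exact Subsingleton.elim _ _
  have hGdet : ∀ i, (G i).det ≠ 0 := by
    intro i
    have h1 : (G i).det = j (G0 i).det := (RingHom.map_det j _).symm
    rw [h1]
    exact fun h => hG0 i (j.injective (by rw [h, map_zero]))
  have hroot : ∀ i, ∀ a ∈ (G i).charpoly.roots, a ∈ (P i).aroots ℂ ∧ a ≠ 0 := by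
    intro i a ha
    refine ⟨by rw [aroots, ← hGchar]; exact ha, ?_⟩
    rintro rfl
    rw [mem_roots (Matrix.charpoly_monic _).ne_zero, IsRoot.def, ← coeff_zero_eq_eval_zero] at ha
    exact hGdet i (by rw [Matrix.det_eq_sign_charpoly_coeff, ha, mul_zero])
  -- the characteristic polynomial of T
  set C : K[X] := T.charpoly with hC
  have hCm : C.Monic := LinearMap.charpoly_monic _
  have hdeg : C.natDegree = finrank K L := LinearMap.charpoly_natDegree _
  have hsplit : (C.map j).Splits := IsAlgClosed.splits _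
  have hprod : j (LinearMap.det T) = (C.map j).roots.prod := by
    rw [LinearMap.det_eq_sign_charpoly_coeff, map_mul, map_pow, map_neg, map_one, ← hC,
      ← Polynomial.coeff_map, hsplit.coeff_zero_eq_prod_roots_of_monic (hCm.map j),
      Polynomial.natDegree_map, hdeg, ← mul_assoc, ← pow_add, ← two_mul, pow_mul, neg_one_sq,
      one_pow, one_mul]
  have key : ∀ lam ∈ (C.map j).roots, lam ≠ 0 ∧
      ∃ i, ∃ b ∈ (P i).aroots ℂ, b ≠ 0 ∧ lam * b ∈ (P i).aroots ℂ := by
    intro lam hlam
    have hlam0 : lam ≠ 0 := by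
      rintro rfl
      apply hdet0
      apply j.injective
      rw [hprod, map_zero]
      exact Multiset.prod_eq_zero hlam
    -- a basis of L
    obtain ⟨m, ⟨b⟩⟩ : ∃ m : ℕ, Nonempty (Basis (Fin m) K L) := ⟨_, ⟨finBasis K L⟩⟩
    set A : Matrix (Fin m) (Fin m) K := LinearMap.toMatrix b b T with hA
    have hAC : (A.map j).charpoly = C.map j := by
      have h1 : (A.map j).charpoly = (A.charpoly).map j := Matrix.charpoly_map _ _
      rw [h1, hA, LinearMap.charpoly_toMatrix]
    have hspec : lam ∈ spectrum ℂ (A.map j) := by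
      rw [Matrix.mem_spectrum_iff_isRoot_charpoly, hAC]
      exact (mem_roots (hCm.map j).ne_zero).1 hlam
    have heig : ∃ v : Fin m → ℂ, v ≠ 0 ∧ A.map j *ᵥ v = lam • v := by
      have h1 : ¬ IsUnit (algebraMap ℂ (Matrix (Fin m) (Fin m) ℂ) lam - A.map j) := hspec
      rw [Matrix.isUnit_iff_isUnit_det, isUnit_iff_ne_zero, not_not] at h1
      obtain ⟨v, hv, hv0⟩ := Matrix.exists_mulVec_eq_zero_iff.2 h1
      refine ⟨v, hv, ?_⟩
      rw [Matrix.sub_mulVec, sub_eq_zero] at hv0
      rw [← hv0, Algebra.algebraMap_eq_smul_one, Matrix.smul_mulVec, Matrix.one_mulVec]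
    obtain ⟨v, hv, hev⟩ := heig
    -- the relation
    have hTb : ∀ k, T (b k) = ∑ l, A l k • b l := by
      intro k
      rw [hA]
      have := b.sum_repr (T (b k))
      rw [← this]
      refine Finset.sum_congr rfl fun l _ => ?_
      rw [LinearMap.toMatrix_apply]
    have hrel2 : ∀ i k, G0 i * β i (b k) = ∑ l, A l k • (β i (b l) * G0 i) := by
      intro i k
      rw [hβ, hTb, map_sum, Finset.sum_mul]
      refine Finset.sum_congr rfl fun l _ => ?_
      rw [map_smul, Matrix.smul_mul]
    let Nk : ∀ i, Fin m → Matrix (Fin (n i)) (Fin (n i)) ℂ := fun i k => (β i (b k)).map j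
    have hrel3 : ∀ i k, G i * Nk i k = ∑ l, j (A l k) • (Nk i l * G i) := by
      intro i k
      have h1 := congrArg (fun M : Matrix (Fin (n i)) (Fin (n i)) K => M.map j) (hrel2 i k)
      have h2 : (G0 i * β i (b k)).map j = G i * Nk i k := Matrix.map_mul
      have h3 : (∑ l, A l k • (β i (b l) * G0 i)).map j = ∑ l, j (A l k) • (Nk i l * G i) := by
        ext a b'
        rw [Matrix.map_apply, Matrix.sum_apply, Matrix.sum_apply, map_sum]
        refine Finset.sum_congr rfl fun l _ => ?_
        rw [Matrix.smul_apply, Matrix.smul_apply, smul_eq_mul, smul_eq_mul, map_mul]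
        congr 1
        have h4 : (β i (b l) * G0 i).map j = Nk i l * G i := Matrix.map_mul
        rw [← h4]
        rfl
      rw [← h2, ← h3]
      exact h1
    let Y : ∀ i, Matrix (Fin (n i)) (Fin (n i)) ℂ := fun i => ∑ k, v k • Nk i k
    have hY : ∀ i, G i * Y i = lam • (Y i * G i) := by
      intro i
      have h1 : G i * Y i = ∑ k, v k • ∑ l, j (A l k) • (Nk i l * G i) := by
        show G i * ∑ k, v k • Nk i k = _
        rw [Finset.mul_sum]
        refine Finset.sum_congr rfl fun k _ => ?_
        rw [Matrix.mul_smul, hrel3]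
      have h2 : ∑ k, v k • ∑ l, j (A l k) • (Nk i l * G i) =
          ∑ l, (∑ k, j (A l k) * v k) • (Nk i l * G i) := by
        simp_rw [Finset.smul_sum, Finset.sum_smul, smul_smul]
        rw [Finset.sum_comm]
        refine Finset.sum_congr rfl fun l _ => Finset.sum_congr rfl fun k _ => ?_
        rw [mul_comm]
      have h3 : ∀ l, ∑ k, j (A l k) * v k = lam * v l := fun l => congrFun hev l
      rw [h1, h2]
      show _ = lam • ((∑ k, v k • Nk i k) * G i)
      rw [Finset.sum_mul, Finset.smul_sum]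
      refine Finset.sum_congr rfl fun l _ => ?_
      rw [h3, Matrix.smul_mul, smul_smul]
    -- one of the blocks is nonzero
    have hne : ∃ i, Y i ≠ 0 := by
      by_contra hall
      push Not at hall
      apply hv
      let Mp : L →ₗ[K] ((Σ i, Fin (n i) × Fin (n i)) → K) :=
        { toFun := fun X p => β p.1 X p.2.1 p.2.2
          map_add' := fun X Y => by
            funext p
            rw [map_add]
            rfl
          map_smul' := fun a X => by
            funext p
            rw [map_smul]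
            rfl }
      have hMp : LinearMap.ker Mp = ⊥ := by
        rw [LinearMap.ker_eq_bot']
        intro X hX
        refine hinj X fun i => ?_
        ext a b'
        exact congrFun hX ⟨i, a, b'⟩
      obtain ⟨R, hR⟩ := LinearMap.exists_leftInverse_of_injective Mp hMp
      let φ : ((Σ i, Fin (n i) × Fin (n i)) → K) →ₗ[K] (Fin m → K) :=
        b.equivFun.toLinearMap ∘ₗ R
      have hφ : ∀ l, φ (Mp (b l)) = Pi.single l 1 := by
        intro l
        show b.equivFun (R (Mp (b l))) = _
        have h4 : R (Mp (b l)) = b l := congrArg (fun f : L →ₗ[K] L => f (b l)) hR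
        rw [h4]
        funext k
        rw [Basis.equivFun_self]
        rw [Pi.single_apply]
        simp [eq_comm]
      funext k
      have h5 : ∀ l, ∑ p, j (LinearMap.toMatrix' φ k p) * j (Mp (b l) p) =
          if k = l then 1 else 0 := by
        intro l
        have h6 := congrFun (hφ l) k
        rw [← Matrix.toLin'_toMatrix' φ, Matrix.toLin'_apply] at h6
        have h7 := congrArg j h6
        rw [Matrix.mulVec, dotProduct, map_sum] at h7
        simp_rw [map_mul] at h7
        rw [h7, Pi.single_apply]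
        split_ifs <;> simp
      have h8 : ∑ p, j (LinearMap.toMatrix' φ k p) * ∑ l, v l * j (Mp (b l) p) = v k := by
        simp_rw [Finset.mul_sum]
        rw [Finset.sum_comm]
        have h9 : ∀ l, ∑ p, j (LinearMap.toMatrix' φ k p) * (v l * j (Mp (b l) p)) =
            v l * if k = l then 1 else 0 := by
          intro l
          rw [← h5 l, Finset.mul_sum]
          exact Finset.sum_congr rfl fun p _ => by ring
        simp_rw [h9]
        simp
      rw [← h8]
      have h10 : ∀ p : (Σ i, Fin (n i) × Fin (n i)), ∑ l, v l * j (Mp (b l) p) = 0 := by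
        rintro ⟨i, a, b'⟩
        have h11 := congrFun (congrFun (hall i) a) b'
        have h12 : Y i a b' = ∑ l, v l * j (Mp (b l) ⟨i, a, b'⟩) := by
          show (∑ k, v k • Nk i k) a b' = _
          rw [Matrix.sum_apply]
          rfl
        rw [← h12]
        exact h11
      simp_rw [h10]
      simp
    obtain ⟨i, hi⟩ := hne
    obtain ⟨β', hβ', hα⟩ := exists_quot hlam0 (hY i) hi
    exact ⟨hlam0, i, β', (hroot i β' hβ').1, (hroot i β' hβ').2, (hroot i _ hα).1⟩
  exact ⟨_, hprod, key⟩

end abs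

theorem prod_mem {ι : Type} (P : ι → ℚ[X]) (R : Multiset ℂ)
    (h : ∀ lam ∈ R, lam ≠ 0 ∧ ∃ i, ∃ b ∈ (P i).aroots ℂ, b ≠ 0 ∧ lam * b ∈ (P i).aroots ℂ) :
    ∃ u ∈ ratioGroup P, (u : ℂ) = R.prod := by
  induction R using Multiset.induction_on with
  | empty => exact ⟨1, one_mem _, by simp⟩
  | cons a s ih =>
    obtain ⟨u, hu, hu2⟩ := ih fun b hb => h b (Multiset.mem_cons_of_mem hb)
    obtain ⟨ha, i, b, hb, hb0, hab⟩ := h a (Multiset.mem_cons_self a s)
    refine ⟨Units.mk0 a ha * u, mul_mem (Subgroup.subset_closure ?_) hu, ?_⟩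
    · exact ⟨i, a * b, hab, b, hb, rfl⟩
    · rw [Multiset.prod_cons, Units.val_mul, hu2, Units.val_mk0]

/-- The determinant of the conjugation with a Frobenius element is in the group of ratios. -/
theorem ratio : S_RATIO := by
  intro ℓ _ j ι _ _ n g g' gi P hgg' hg'g hg hP L hblk hL
  have hgi : ∀ i, Function.Injective (gi i) := by
    intro i
    rw [← LinearMap.ker_eq_bot, LinearMap.ker_eq_bot']
    intro x hx
    have h1 : g (Pi.single i x) = 0 := by
      funext k
      rw [hg]
      by_cases hk : k = i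
      · subst hk
        rw [Pi.single_eq_same, hx]
        rfl
      · rw [Pi.single_eq_of_ne hk, map_zero]
        rfl
    have h2 : (g' * g) (Pi.single i x) = 0 := by
      rw [Module.End.mul_apply, h1, map_zero]
    rw [hg'g, Module.End.one_apply] at h2
    have h3 := congrFun h2 i
    rw [Pi.single_eq_same] at h3
    exact h3
  have hgdet : ∀ i, LinearMap.det (gi i) ≠ 0 := by
    intro i h0
    have h1 := (LinearMap.bot_lt_ker_of_det_eq_zero h0)
    rw [LinearMap.ker_eq_bot.2 (hgi i)] at h1
    exact lt_irrefl _ h1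
  suffices hs : ∃ R : Multiset ℂ, j (detOn L (AdE g g') hL) = R.prod ∧ ∀ lam ∈ R, lam ≠ 0 ∧
      ∃ i, ∃ b ∈ (P i).aroots ℂ, b ≠ 0 ∧ lam * b ∈ (P i).aroots ℂ by
    obtain ⟨R, hR, hR2⟩ := hs
    obtain ⟨u, hu, hu2⟩ := prod_mem P R hR2
    exact ⟨u, hu, by rw [hu2, hR]⟩
  refine abs_ratio j (fun i => LinearMap.toMatrix' (gi i)) (fun i => ?_) P (fun i => ?_) L
    ((AdE g g').restrict hL) (fun i => (blkL i).comp L.subtype) (fun X i => ?_) (fun X hX => ?_)
  · rw [LinearMap.det_toMatrix']
    exact hgdet i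
  · rw [← LinearMap.toMatrix_eq_toMatrix', LinearMap.charpoly_toMatrix, hP]
  · show LinearMap.toMatrix' (gi i) * blk i (X : End ℚ_[ℓ] (∀ i, Fin (n i) → ℚ_[ℓ])) =
      blk i (g * ((X : End ℚ_[ℓ] (∀ i, Fin (n i) → ℚ_[ℓ])) * g')) * LinearMap.toMatrix' (gi i)
    rw [← blk_mul_left hg, ← blk_mul_right hg, mul_assoc, mul_assoc, hg'g, mul_one]
  · apply Subtype.ext
    refine LinearMap.ext fun x => ?_
    funext i
    rw [hblk X X.2 x i, blk_apply_vec, show blk i (X : End ℚ_[ℓ] (∀ i, Fin (n i) → ℚ_[ℓ])) = 0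
      from hX i, Matrix.zero_mulVec]
    rfl

end Pool.Agent.Y220.RM
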