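import Mathlib

/-!
# Project RM (helper114): a torsion-free neighbourhood of the identity in `GL_m(ℚ_ℓ)`
-/

set_option autoImplicit false

namespace Pool.Agent.Y220.RM

open Finset

variable {m : ℕ} {ℓ : ℕ} [hℓ : Fact ℓ.Prime]

theorem pow_small (B : Matrix (Fin m) (Fin m) ℚ_[ℓ]) {c : ℝ} (hc0 : 0 ≤ c)
    (hB : ∀ i j, ‖B i j‖ ≤ c) (k : ℕ) : ∀ i j, ‖(B ^ k) i j‖ ≤ c ^ k := by
  induction k with
  | zero =>
    intro i j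
    rw [pow_zero, pow_zero, Matrix.one_apply]
    split_ifs <;> simp
  | succ k ih =>
    intro i j
    rw [pow_succ, Matrix.mul_apply, pow_succ]
    refine IsUltrametricDist.norm_sum_le_of_forall_le_of_nonneg (by positivity) fun l _ => ?_
    rw [norm_mul]
    exact mul_le_mul (ih i l) (hB l j) (norm_nonneg _) (by positivity)

theorem norm_nat_low (k : ℕ) {c : ℝ} (hc0 : 0 ≤ c) (hc : c ≤ (ℓ : ℝ) ^ (-2 : ℤ)) :
    c ^ (k + 1) < ‖((k + 2 : ℕ) : ℚ_[ℓ])‖ := by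
  have hl2 : 2 ≤ ℓ := hℓ.out.two_le
  by_contra hcon
  rw [not_lt] at hcon
  have h1 : ‖(((k + 2 : ℕ) : ℤ) : ℚ_[ℓ])‖ ≤ (ℓ : ℝ) ^ (-((2 * k + 2 : ℕ) : ℤ)) := by
    rw [Int.cast_natCast]
    refine hcon.trans ?_
    calc c ^ (k + 1) ≤ ((ℓ : ℝ) ^ (-2 : ℤ)) ^ (k + 1) := pow_le_pow_left₀ hc0 hc _
      _ = (ℓ : ℝ) ^ (-((2 * k + 2 : ℕ) : ℤ)) := by
          rw [← zpow_natCast, ← zpow_mul]
          congr 1
  rw [Padic.norm_int_le_pow_iff_dvd] at h1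
  have h2 : ℓ ^ (2 * k + 2) ∣ k + 2 := by exact_mod_cast h1
  have h3 := Nat.le_of_dvd (by omega) h2
  have h4 : 2 ^ (2 * k + 2) ≤ ℓ ^ (2 * k + 2) := Nat.pow_le_pow_left hl2 _
  have h5 : k + 2 < 2 ^ (k + 2) := Nat.lt_two_pow_self
  have h6 : 2 ^ (k + 2) ≤ 2 ^ (2 * k + 2) := Nat.pow_le_pow_right (by norm_num) (by omega)
  omega

/-- A matrix of finite order which is close to the identity is the identity. -/
theorem unip (B : Matrix (Fin m) (Fin m) ℚ_[ℓ]) (hB : ∀ i j, ‖B i j‖ ≤ (ℓ : ℝ) ^ (-2 : ℤ))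
    {M : ℕ} (hM : 0 < M) (h : (1 + B) ^ M = 1) : B = 0 := by
  by_contra hne
  obtain ⟨i0, j0, hij⟩ : ∃ i0 j0, B i0 j0 ≠ 0 := by
    by_contra hall
    push Not at hall
    exact hne (Matrix.ext hall)
  have : Nonempty (Fin m × Fin m) := ⟨(i0, j0)⟩
  obtain ⟨⟨i, j⟩, hmax⟩ := Finite.exists_max (fun p : Fin m × Fin m => ‖B p.1 p.2‖)
  obtain ⟨c, hcd⟩ : ∃ c : ℝ, c = ‖B i j‖ := ⟨_, rfl⟩
  have hmax' : ∀ a b, ‖B a b‖ ≤ c := fun a b => by rw [hcd]; exact hmax (a, b)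
  have hc : 0 < c := (norm_pos_iff.2 hij).trans_le (hmax' i0 j0)
  have hc2 : c ≤ (ℓ : ℝ) ^ (-2 : ℤ) := by rw [hcd]; exact hB i j
  obtain ⟨M', rfl⟩ : ∃ M', M = M' + 1 := ⟨M - 1, by omega⟩
  -- the binomial expansion
  have h1 : (1 + B) ^ (M' + 1) = ∑ k ∈ range (M' + 1 + 1), ((M' + 1).choose k : ℚ_[ℓ]) • B ^ k := by
    rw [add_comm, (Commute.one_right B).add_pow]
    refine Finset.sum_congr rfl fun k _ => ?_
    rw [one_pow, mul_one, ← Nat.cast_commute, ← nsmul_eq_mul, Nat.cast_smul_eq_nsmul]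
  rw [Finset.sum_range_succ', Finset.sum_range_succ', h] at h1
  have h2 : ∑ k ∈ range M', ((M' + 1).choose (k + 1 + 1) : ℚ_[ℓ]) • B ^ (k + 1 + 1) +
      ((M' + 1 : ℕ) : ℚ_[ℓ]) • B = 0 := by
    have h3 : ((M' + 1).choose 0 : ℚ_[ℓ]) • B ^ 0 = 1 := by simp
    have h4 : ((M' + 1).choose (0 + 1) : ℚ_[ℓ]) • B ^ (0 + 1) = ((M' + 1 : ℕ) : ℚ_[ℓ]) • B := by
      simp
    rw [h3, h4] at h1
    exact (add_eq_right.1 h1.symm)
  have h3 : ((M' + 1 : ℕ) : ℚ_[ℓ]) * B i j =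
      -∑ k ∈ range M', ((M' + 1).choose (k + 1 + 1) : ℚ_[ℓ]) * (B ^ (k + 1 + 1)) i j := by
    have h4 := congrFun (congrFun h2 i) j
    rw [Matrix.add_apply, Matrix.sum_apply] at h4
    simp only [Matrix.smul_apply, smul_eq_mul, Matrix.zero_apply] at h4
    linear_combination h4
  have hM0 : ((M' + 1 : ℕ) : ℚ_[ℓ]) ≠ 0 := Nat.cast_ne_zero.2 (by omega)
  have h4 : ‖((M' + 1 : ℕ) : ℚ_[ℓ])‖ * c =
      ‖∑ k ∈ range M', ((M' + 1).choose (k + 1 + 1) : ℚ_[ℓ]) * (B ^ (k + 1 + 1)) i j‖ := by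
    rw [hcd, ← norm_mul, h3, norm_neg]
  have hpos : 0 < ‖((M' + 1 : ℕ) : ℚ_[ℓ])‖ * c := mul_pos (norm_pos_iff.2 hM0) hc
  rcases Nat.eq_zero_or_pos M' with rfl | hM'
  · rw [h4, Finset.range_zero, Finset.sum_empty, norm_zero] at hpos
    exact lt_irrefl _ hpos
  · obtain ⟨k, hk, hk2⟩ := IsUltrametricDist.exists_norm_finsetSum_le_of_nonempty
      (Finset.nonempty_range_iff.2 hM'.ne')
      (fun k => ((M' + 1).choose (k + 1 + 1) : ℚ_[ℓ]) * (B ^ (k + 1 + 1)) i j)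
    rw [← h4, norm_mul] at hk2
    have hk' := Finset.mem_range.1 hk
    have hch : ((M' + 1).choose (k + 1 + 1) : ℚ_[ℓ]) ≠ 0 :=
      Nat.cast_ne_zero.2 (Nat.choose_pos (by omega)).ne'
    have hchp := norm_pos_iff.2 hch
    have h5 := pow_small B hc.le hmax' (k + 1 + 1) i j
    have h6 : ‖((M' + 1).choose (k + 1 + 1) : ℚ_[ℓ])‖ * ‖((k + 2 : ℕ) : ℚ_[ℓ])‖ ≤
        ‖((M' + 1 : ℕ) : ℚ_[ℓ])‖ := by
      have h7 := Nat.add_one_mul_choose_eq M' (k + 1)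
      have h8 : ((M' + 1).choose (k + 1 + 1) : ℚ_[ℓ]) * ((k + 2 : ℕ) : ℚ_[ℓ]) =
          ((M' + 1 : ℕ) : ℚ_[ℓ]) * (M'.choose (k + 1) : ℚ_[ℓ]) := by
        rw [← Nat.cast_mul, ← Nat.cast_mul]
        congr 1
        exact h7.symm
      rw [← norm_mul, h8, norm_mul]
      have h9 : ‖(M'.choose (k + 1) : ℚ_[ℓ])‖ ≤ 1 := by
        have := Padic.norm_int_le_one (p := ℓ) (M'.choose (k + 1) : ℤ)
        rwa [Int.cast_natCast] at this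
      calc _ ≤ ‖((M' + 1 : ℕ) : ℚ_[ℓ])‖ * 1 := mul_le_mul_of_nonneg_left h9 (norm_nonneg _)
        _ = _ := mul_one _
    have h7 := norm_nat_low (ℓ := ℓ) k hc.le hc2
    have h8 : ‖((M' + 1).choose (k + 1 + 1) : ℚ_[ℓ])‖ * ‖(B ^ (k + 1 + 1)) i j‖ <
        ‖((M' + 1 : ℕ) : ℚ_[ℓ])‖ * c := by
      calc ‖((M' + 1).choose (k + 1 + 1) : ℚ_[ℓ])‖ * ‖(B ^ (k + 1 + 1)) i j‖
          ≤ ‖((M' + 1).choose (k + 1 + 1) : ℚ_[ℓ])‖ * c ^ (k + 1 + 1) :=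
            mul_le_mul_of_nonneg_left h5 hchp.le
        _ = ‖((M' + 1).choose (k + 1 + 1) : ℚ_[ℓ])‖ * c ^ (k + 1) * c := by rw [pow_succ]; ring
        _ < ‖((M' + 1).choose (k + 1 + 1) : ℚ_[ℓ])‖ * ‖((k + 2 : ℕ) : ℚ_[ℓ])‖ * c := by
            apply mul_lt_mul_of_pos_right _ hc
            exact mul_lt_mul_of_pos_left h7 hchp
        _ ≤ ‖((M' + 1 : ℕ) : ℚ_[ℓ])‖ * c := mul_le_mul_of_nonneg_right h6 hc.le
    exact absurd hk2 (not_le.2 h8)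

end Pool.Agent.Y220.RM
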